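import Mathlib

/-!
# MP_1f2761, k = 2: the process (definitions)

All numbers are naturals. A *macro-digit* is a string `s : Fin l → Fin 3` (`s 0` = lowest bit) over the
symbols `0 = (N,a) = (0,0)`, `1 = (0,1)`, `2 = (1,1)`; a *block* is `S : Fin k → Fin l → Fin 3`
(`S 0` = lowest macro-digit), `w = l * k` bits. The state is `(ν, α) : ℕ × ℕ`, the top parts of `N`, `a`;
`J` is the number of bits which are still below.
-/

set_option autoImplicit false

open Finset

namespace Pool.Agent.H24.FD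

/-- value of the `N` bits of a macro-digit -/
def vN {l : ℕ} (s : Fin l → Fin 3) : ℕ := ∑ i : Fin l, 2 ^ (i : ℕ) * (if s i = 2 then 1 else 0)

/-- value of the `a` bits of a macro-digit -/
def vA {l : ℕ} (s : Fin l → Fin 3) : ℕ := ∑ i : Fin l, 2 ^ (i : ℕ) * (if s i = 0 then 0 else 1)

/-- number of symbols `c` in a macro-digit -/
def cn {l : ℕ} (c : Fin 3) (s : Fin l → Fin 3) : ℕ := (univ.filter fun i => s i = c).card

/-- the `N` part is typical -/
def typN (ε : ℝ) {l : ℕ} (s : Fin l → Fin 3) : Prop := |(cn 2 s : ℝ) - l / 2| ≤ ε * l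

/-- a typical macro-digit -/
def typ (ε : ℝ) {l : ℕ} (s : Fin l → Fin 3) : Prop :=
  typN ε s ∧ |(cn 1 s : ℝ) - l / 4| ≤ ε * l

open Classical in
/-- number of typical macro-digits with the same `N` part -/
noncomputable def DD (ε : ℝ) {l : ℕ} (s : Fin l → Fin 3) : ℕ :=
  (univ.filter fun s' : Fin l → Fin 3 => vN s' = vN s ∧ typ ε s').card

open Classical in
/-- the free law on a macro-digit (all `N`): typical `N`: uniform on the typical supersets;
atypical `N`: `a = N` -/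
noncomputable def pF (ε : ℝ) {l : ℕ} (s : Fin l → Fin 3) : ℝ :=
  if typN ε s then (if typ ε s then 1 / (2 ^ l * (DD ε s : ℝ)) else 0)
  else (if cn 1 s = 0 then 1 / 2 ^ l else 0)

open Classical in
/-- the free law restricted to typical macro-digits (a sub-probability) -/
noncomputable def pT (ε : ℝ) {l : ℕ} (s : Fin l → Fin 3) : ℝ :=
  if typ ε s then 1 / (2 ^ l * (DD ε s : ℝ)) else 0

/-- value of the `N` bits of a string of macro-digits -/
def VN {l k : ℕ} (S : Fin k → Fin l → Fin 3) : ℕ := ∑ i : Fin k, (2 ^ l) ^ (i : ℕ) * vN (S i)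

/-- value of the `a` bits of a string of macro-digits -/
def VA {l k : ℕ} (S : Fin k → Fin l → Fin 3) : ℕ := ∑ i : Fin k, (2 ^ l) ^ (i : ℕ) * vA (S i)

/-- free law of a string of macro-digits -/
noncomputable def PF (ε : ℝ) {l k : ℕ} (S : Fin k → Fin l → Fin 3) : ℝ := ∏ i, pF ε (S i)

/-- typical free law of a string of macro-digits -/
noncomputable def PT (ε : ℝ) {l k : ℕ} (S : Fin k → Fin l → Fin 3) : ℝ := ∏ i, pT ε (S i)

/-- append a string to the state -/
def app {l k : ℕ} (x : ℕ × ℕ) (S : Fin k → Fin l → Fin 3) : ℕ × ℕ :=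
  (2 ^ (l * k) * x.1 + VN S, 2 ^ (l * k) * x.2 + VA S)

/-- `I_J` : least `I` with `2^J ≤ q^I` -/
def II (q J : ℕ) : ℕ := Nat.clog q (2 ^ J)

/-- `y_J = 2^J / q^(I_J)` -/
noncomputable def yy (q J : ℕ) : ℝ := (2 : ℝ) ^ J / (q : ℝ) ^ II q J

/-- number of base `q` digits of the block of `w` bits with top `J` -/
def tt (q w J : ℕ) : ℕ := II q J - II q (J - w)

/-- truncated digits of a block: `x'` is the state after the block, `J' = J - w` bits remain -/
def zz (q w J : ℕ) (x' : ℕ × ℕ) : ℕ × ℕ :=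
  (x'.1 * 2 ^ (J - w) / q ^ II q (J - w) % q ^ tt q w J,
   x'.2 * 2 ^ (J - w) / q ^ II q (J - w) % q ^ tt q w J)

section process

variable (q l k : ℕ) (ε : ℝ) (om : ℕ → ℕ × ℕ → ℝ)

open Classical in
/-- the quenched mass of a block: `om J z` is the kernel of the block with top `J`
at the digit pair `z = (V, A)` -/
noncomputable def ZZ (J : ℕ) (x : ℕ × ℕ) (S : Fin k → Fin l → Fin 3) : ℝ :=
  2 ^ (l * k) * ∑ S' : Fin k → Fin l → Fin 3,
    (if VN S' = VN S then PF ε S' * om J (zz q (l * k) J (app x S')) else 0)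

/-- the block is not lost -/
def keep (J : ℕ) (x : ℕ × ℕ) (S : Fin k → Fin l → Fin 3) : Prop :=
  (∀ i, typN ε (S i)) ∧ 1 / 2 ≤ ZZ q l k ε om J x S

open Classical in
/-- the policy -/
noncomputable def piQ (J : ℕ) (x : ℕ × ℕ) (S : Fin k → Fin l → Fin 3) : ℝ :=
  if keep q l k ε om J x S then
    PF ε S * om J (zz q (l * k) J (app x S)) / ZZ q l k ε om J x S
  else PF ε S

/-- expectation of `f` (a function of the state after `n` blocks), starting from the state `x` with `J`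
bits remaining -/
noncomputable def EQ : ℕ → ℕ → (ℕ × ℕ → ℝ) → ℕ × ℕ → ℝ
  | _, 0, f, x => f x
  | J, n + 1, f, x => ∑ S : Fin k → Fin l → Fin 3,
      piQ q l k ε om J x S * EQ (J - l * k) n f (app x S)

open Classical in
/-- the same for typical paths only -/
noncomputable def ET : ℕ → ℕ → (ℕ × ℕ → ℝ) → ℕ × ℕ → ℝ
  | _, 0, f, x => f x
  | J, n + 1, f, x => ∑ S : Fin k → Fin l → Fin 3,
      (if (∀ i, typN ε (S i)) then piQ q l k ε om J x S * ET (J - l * k) n f (app x S) else 0)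

end process

/-- the comparison `N mod p^m < a mod p^m` is decided by the state, whatever the `J` lower bits are -/
def Sure (p m J : ℕ) (x : ℕ × ℕ) : Prop :=
  x.1 * 2 ^ J % p ^ m + 2 ^ J ≤ x.2 * 2 ^ J % p ^ m ∧ x.2 * 2 ^ J % p ^ m + 2 ^ J ≤ p ^ m

open Classical in
/-- number of base `p` levels `m` with `2^J ≤ p^m < 2^(J+W)` which are not decided by the state `x`
(`J` bits remain below `x`) -/
noncomputable def bad (p W J : ℕ) (x : ℕ × ℕ) : ℕ :=
  ((range (J + W + 1)).filter fun m => 2 ^ J ≤ p ^ m ∧ p ^ m < 2 ^ (J + W) ∧ ¬ Sure p m J x).card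

/-- allowed density (per bit) of undecided levels in a window of type `q` -/
noncomputable def dens (q p : ℕ) : ℝ :=
  if p = 2 then 0
  else if p = q then (if q = 3 then 5 / 38 else 9 / 95) / Real.logb 2 p
  else 1 / 2 / Real.logb 2 p

/-- INTERFACE (WIN): window kernels. `P J x η ξ` : law of the `W` new bits (`J` bits remain below the
window), given the state `x` above the window; `η` is uniform for every `x`. -/
def Win : Prop :=
  ∀ ε : ℝ, 0 < ε → ∀ P₀ : ℕ, ∃ W : ℕ, 0 < W ∧ ∀ q : ℕ, (q = 3 ∨ q = 5) →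
    ∃ (P : ℕ → ℕ × ℕ → ℕ → ℕ → ℝ) (β : ℕ → ℕ → ℝ),
      (∀ J x η ξ, 0 ≤ P J x η ξ) ∧
      (∀ J x, ∀ η < 2 ^ W, ∑ ξ ∈ range (2 ^ W), P J x η ξ = 1 / 2 ^ W) ∧
      (∀ p ≤ P₀, p.Prime → ∀ J x, ∑ η ∈ range (2 ^ W), ∑ ξ ∈ range (2 ^ W),
        P J x η ξ * (bad p W J (2 ^ W * x.1 + η, 2 ^ W * x.2 + ξ) : ℝ) ≤ β p J) ∧
      (∀ p ≤ P₀, p.Prime → ∃ K₀ : ℕ, ∀ K ≥ K₀, ∀ J : ℕ,
        ∑ i ∈ range K, β p (J + i * W) ≤ (dens q p + ε) * (K * W))

open Classical in
/-- CORE THEOREM (statement): from every start `x`, with `J` bits below, for almost all continuations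
`η` of `N` by `L` bits there is a continuation `ξ` of `a` with almost the required number of
decided carries for every prime `p ≤ P₀`. -/
def Core : Prop :=
  ∀ ε : ℝ, 0 < ε → ∀ P₀ : ℕ, ∃ L₀ : ℕ, ∀ L ≥ L₀, ∀ J : ℕ, ∀ x : ℕ × ℕ,
    (((range (2 ^ L)).filter fun η => ¬ ∃ ξ < 2 ^ L, ∀ p ≤ P₀, p.Prime →
      (1 / ((p : ℝ) - 1) - ε) * L ≤
        (((range (J + L + 1)).filter fun m =>
          Sure p m J (2 ^ L * x.1 + η, 2 ^ L * x.2 + ξ)).card : ℝ)).card : ℝ) ≤ ε * 2 ^ L

end Pool.Agent.H24.FD
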