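import Mathlib
import Pool.Agent.H24.FD.Defs
import Pool.Agent.H42.K2.Defs

/-!
# MP_1f2761, k = 2: the process, definitions and rows, part 1

Rows are Props `XXXStmt`; deliver `theorem xxx : XXXStmt`.
-/

set_option autoImplicit false

open Finset

namespace Pool.Agent.H24.FD

/-- row VALS: values -/
def VALSStmt : Prop := ∀ (l k : ℕ) (S : Fin k → Fin l → Fin 3),
  VN S < 2 ^ (l * k) ∧ VA S < 2 ^ (l * k) ∧ VN S ≤ VA S ∧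
  ∀ S' : Fin k → Fin l → Fin 3, VN S = VN S' → VA S = VA S' → S = S'

open Classical in
/-- the free law of a macro-digit has uniform `N` marginal -/
def Marg (ε : ℝ) (l : ℕ) : Prop := ∀ η < 2 ^ l,
  ∑ s : Fin l → Fin 3, (if vN s = η then pF ε s else 0) = 1 / 2 ^ l

/-- row MARG -/
def MARGStmt : Prop := ∀ ε : ℝ, 0 < ε → ∃ l₀ : ℕ, ∀ l ≥ l₀, Marg ε l

open Classical in
/-- row PFM: the marginal of a string -/
def PFMStmt : Prop := ∀ (ε : ℝ) (l : ℕ), Marg ε l → ∀ k : ℕ, ∀ η < 2 ^ (l * k),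
  ∑ S : Fin k → Fin l → Fin 3, (if VN S = η then PF ε S else 0) = 1 / 2 ^ (l * k)

open Classical in
/-- row PIM: the marginal of the policy -/
def PIMStmt : Prop := ∀ (q l k : ℕ) (ε : ℝ) (om : ℕ → ℕ × ℕ → ℝ), Marg ε l →
  ∀ (J : ℕ) (x : ℕ × ℕ), ∀ η < 2 ^ (l * k),
  ∑ S : Fin k → Fin l → Fin 3, (if VN S = η then piQ q l k ε om J x S else 0) = 1 / 2 ^ (l * k)

/-- row PIN: the policy is nonnegative -/
def PINStmt : Prop := ∀ (q l k : ℕ) (ε : ℝ) (om : ℕ → ℕ × ℕ → ℝ), (∀ J z, 0 ≤ om J z) →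
  ∀ (J : ℕ) (x : ℕ × ℕ) (S : Fin k → Fin l → Fin 3), 0 ≤ piQ q l k ε om J x S

/-- row EQB: basic properties of the expectation -/
def EQBStmt : Prop := ∀ (q l k : ℕ) (ε : ℝ) (om : ℕ → ℕ × ℕ → ℝ), Marg ε l →
  (∀ J z, 0 ≤ om J z) →
  -- constants
  (∀ (n J : ℕ) (c : ℝ) (x : ℕ × ℕ), EQ q l k ε om J n (fun _ => c) x = c) ∧
  -- monotone
  (∀ (n J : ℕ) (f g : ℕ × ℕ → ℝ) (x : ℕ × ℕ), (∀ y, f y ≤ g y) →
    EQ q l k ε om J n f x ≤ EQ q l k ε om J n g x) ∧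
  -- linear
  (∀ (n J : ℕ) (f g : ℕ × ℕ → ℝ) (c : ℝ) (x : ℕ × ℕ),
    EQ q l k ε om J n (fun y => c * f y + g y) x =
      c * EQ q l k ε om J n f x + EQ q l k ε om J n g x) ∧
  -- tower
  (∀ (m n J : ℕ) (f : ℕ × ℕ → ℝ) (x : ℕ × ℕ),
    EQ q l k ε om J (m + n) f x =
      EQ q l k ε om J m (fun y => EQ q l k ε om (J - l * k * m) n f y) x) ∧
  -- functions of `N`
  (∀ (n J : ℕ) (g : ℕ → ℝ) (x : ℕ × ℕ),
    EQ q l k ε om J n (fun y => g y.1) x =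
      (∑ η ∈ range (2 ^ (l * k * n)), g (2 ^ (l * k * n) * x.1 + η)) / 2 ^ (l * k * n))

open Classical in
/-- probability of an atypical macro-digit -/
noncomputable def atyp (ε : ℝ) (l : ℕ) : ℝ :=
  ∑ s : Fin l → Fin 3, (if typN ε s then 0 else pF ε s)

/-- row ATY: the probability of an atypical macro-digit -/
def ATYStmt : Prop := ∀ ε : ℝ, 0 < ε → ∃ l₀ : ℕ, ∀ l ≥ l₀,
  0 ≤ atyp ε l ∧ atyp ε l ≤ 2 * Real.exp (-(2 * ε ^ 2 * l))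

/-- row SPL: the typical/atypical split -/
def SPLStmt : Prop := ∀ (q l k : ℕ) (ε : ℝ) (om : ℕ → ℕ × ℕ → ℝ), Marg ε l →
  (∀ J z, 0 ≤ om J z) →
  (∀ (n J : ℕ) (f : ℕ × ℕ → ℝ) (x : ℕ × ℕ), (∀ y, 0 ≤ f y) → (∀ y, f y ≤ 1) →
    ET q l k ε om J n f x ≤ EQ q l k ε om J n f x ∧
    EQ q l k ε om J n f x ≤ ET q l k ε om J n f x + n * k * atyp ε l) ∧
  (∀ (m n J : ℕ) (f : ℕ × ℕ → ℝ) (x : ℕ × ℕ),
    ET q l k ε om J (m + n) f x =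
      ET q l k ε om J m (fun y => ET q l k ε om (J - l * k * m) n f y) x) ∧
  (∀ (n J : ℕ) (f g : ℕ × ℕ → ℝ) (x : ℕ × ℕ), (∀ y, f y ≤ g y) →
    ET q l k ε om J n f x ≤ ET q l k ε om J n g x) ∧
  (∀ (n J : ℕ) (f g : ℕ × ℕ → ℝ) (c : ℝ) (x : ℕ × ℕ),
    ET q l k ε om J n (fun y => c * f y + g y) x =
      c * ET q l k ε om J n f x + ET q l k ε om J n g x)

/-- expectation of `g` over `u` free typical macro-digits (a sub-probability) -/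
noncomputable def EP (ε : ℝ) (l u : ℕ) (g : ℕ × ℕ → ℝ) (x : ℕ × ℕ) : ℝ :=
  ∑ U : Fin u → Fin l → Fin 3, PT ε U * g (app x U)

/-- row EPA: semigroup, monotone, mass at most one -/
def EPAStmt : Prop := ∀ (ε : ℝ) (l : ℕ), Marg ε l →
  (∀ (u v : ℕ) (g : ℕ × ℕ → ℝ) (x : ℕ × ℕ),
    EP ε l (u + v) g x = EP ε l u (fun y => EP ε l v g y) x) ∧
  (∀ (u : ℕ) (f g : ℕ × ℕ → ℝ) (x : ℕ × ℕ), (∀ y, f y ≤ g y) → EP ε l u f x ≤ EP ε l u g x) ∧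
  (∀ (u : ℕ) (c : ℝ) (x : ℕ × ℕ), 0 ≤ c → EP ε l u (fun _ => c) x ≤ c) ∧
  (∀ (u : ℕ) (f g : ℕ × ℕ → ℝ) (c : ℝ) (x : ℕ × ℕ),
    EP ε l u (fun y => c * f y + g y) x = c * EP ε l u f x + EP ε l u g x)

/-- the comparison operator -/
noncomputable def RT (q l k : ℕ) (ε : ℝ) (om : ℕ → ℕ × ℕ → ℝ) :
    ℕ → ℕ → (ℕ × ℕ → ℝ) → ℕ × ℕ → ℝ
  | _, 0, f, x => f x
  | J, n + 1, f, x => EP ε l k (fun y => (1 + 2 * om J (zz q (l * k) J y)) *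
      RT q l k ε om (J - l * k) n f y) x

/-- row ETR: `ET ≤ RT` -/
def ETRStmt : Prop := ∀ (q l k : ℕ) (ε : ℝ) (om : ℕ → ℕ × ℕ → ℝ), (∀ J z, 0 ≤ om J z) →
  ∀ (n J : ℕ) (f : ℕ × ℕ → ℝ) (x : ℕ × ℕ), (∀ y, 0 ≤ f y) →
    ET q l k ε om J n f x ≤ RT q l k ε om J n f x

/-- the sum over the four possible truncated digits, given the full digits -/
noncomputable def omP (q w : ℕ) (om : ℕ → ℕ × ℕ → ℝ) (J : ℕ) (z : ℕ × ℕ) : ℝ :=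
  ∑ d₁ ∈ range 2, ∑ d₂ ∈ range 2,
    om J ((z.1 + q ^ tt q w J - d₁) % q ^ tt q w J, (z.2 + q ^ tt q w J - d₂) % q ^ tt q w J)

/-- the flattened density of `n` blocks, a function of the full digits -/
noncomputable def OMF (q w : ℕ) (om : ℕ → ℕ × ℕ → ℝ) : ℕ → ℕ → ℕ × ℕ → ℝ
  | _, 0, _ => 1
  | J, n + 1, z =>
      (1 + 2 * omP q w om J (z.1 / q ^ tt q (w * n) (J - w), z.2 / q ^ tt q (w * n) (J - w))) *
      OMF q w om (J - w) n (z.1 % q ^ tt q (w * n) (J - w), z.2 % q ^ tt q (w * n) (J - w))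

/-- row FLA: flattening -/
def FLAStmt : Prop := ∀ (q l k : ℕ) (ε : ℝ) (om : ℕ → ℕ × ℕ → ℝ), 2 ≤ q → Marg ε l →
  (∀ J z, 0 ≤ om J z) → ∀ (n J : ℕ), l * k * n ≤ J → ∀ (f : ℕ × ℕ → ℝ), (∀ y, 0 ≤ f y) →
  ∀ x : ℕ × ℕ, RT q l k ε om J n f x ≤
    EP ε l (k * n) (fun y => OMF q (l * k) om J n (zz q (l * k * n) J y) * f y) x

end Pool.Agent.H24.FD
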