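import Mathlib
import Pool.Agent.H24.FD.P1

/-!
# MP_1f2761, k = 2: the process, definitions and rows, part 2 (kernels, crude bound, induction)
-/

set_option autoImplicit false

open Finset

namespace Pool.Agent.H24.FD

/-! ## Kernels -/

/-- a macro kernel of length `m` with cost `κ` (first argument: digits of `N`) -/
structure MK (q m : ℕ) (κ : ℝ) (wm : ℕ → ℕ → ℝ) : Prop where
  nonneg : ∀ V A, 0 ≤ wm V A
  sum_one : ∀ V < q ^ m, ∑ A ∈ range (q ^ m), wm V A = (q : ℝ) ^ m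
  le : ∀ V A, wm V A ≤ (q : ℝ) ^ (κ * m)

/-- number of levels `1 ≤ j ≤ m` with `V mod q^j < A mod q^j` -/
def ncar (q m V A : ℕ) : ℕ := ((Icc 1 m).filter fun j => V % q ^ j < A % q ^ j).card

open Classical in
/-- macro kernels with cost `κ` and carry density `x` exist -/
def MKX (q : ℕ) (κ x : ℝ) : Prop := ∀ ε : ℝ, 0 < ε → ∀ M : ℕ, ∃ m ≥ M, 0 < m ∧
  ∃ wm : ℕ → ℕ → ℝ, MK q m (κ + ε) wm ∧
    (((range (q ^ m)).filter fun V => ∃ A < q ^ m, wm V A ≠ 0 ∧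
      (ncar q m V A : ℝ) < (x - ε) * m).card : ℝ) ≤ ε * (q : ℝ) ^ m

/-- row MKX3, from `Pool.Agent.H93.KE.kernel3` -/
def MKX3Stmt : Prop := MKX 3 (193 / 750) (33 / 38)
/-- row MKX5, from `Pool.Agent.H93.KE.kernel5` -/
def MKX5Stmt : Prop := MKX 5 (393 / 1500) (86 / 95)

/-- the bottom `g` digits of `A` are not all `q - 1` -/
noncomputable def gd (q g A : ℕ) : ℝ := if A % q ^ g = q ^ g - 1 then 0 else 1 / (1 - 1 / (q : ℝ) ^ g)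

/-- number of macro-digits of a block of `t` digits -/
def nb (m g t₁ t : ℕ) : ℕ := (t - t₁ - g) / m

/-- kernel of a block with `t` digits: `t₁` free top digits, `nb` macro-digits, at least `g` free
bottom digits (apart from `gd`) -/
noncomputable def omK (q m g t₁ : ℕ) (wm : ℕ → ℕ → ℝ) (t : ℕ) (z : ℕ × ℕ) : ℝ :=
  (∏ i ∈ range (nb m g t₁ t),
    wm (z.1 / q ^ (t - t₁ - (i + 1) * m) % q ^ m) (z.2 / q ^ (t - t₁ - (i + 1) * m) % q ^ m)) *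
  gd q g z.2

/-- row KER: properties of the block kernel -/
def KERStmt : Prop := ∀ (q m g t₁ t : ℕ) (κ : ℝ) (wm : ℕ → ℕ → ℝ), 2 ≤ q → 1 ≤ m → 1 ≤ g →
  t₁ + g ≤ t → 0 ≤ κ → MK q m κ wm →
  (∀ z, 0 ≤ omK q m g t₁ wm t z) ∧
  (∀ V, ∑ A ∈ range (q ^ t), omK q m g t₁ wm t (V, A) = (q : ℝ) ^ t) ∧
  (∀ z, omK q m g t₁ wm t z ≤ 2 * (q : ℝ) ^ (κ * t)) ∧
  (∀ V, ∀ i ≤ t, ∀ b < q ^ i, ∑ A ∈ range (q ^ (t - i)),
    omK q m g t₁ wm t (V, b * q ^ (t - i) + A) ≤ 2 * (q : ℝ) ^ (κ * (i + m)) * (q : ℝ) ^ (t - i)) ∧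
  (∀ V, ∀ i ≤ t₁, ∀ b < q ^ i, ∑ A ∈ range (q ^ (t - i)),
    omK q m g t₁ wm t (V, b * q ^ (t - i) + A) = (q : ℝ) ^ (t - i)) ∧
  (∀ z, omK q m g t₁ wm t z = omK q m g t₁ wm t (z.1 % q ^ (t - t₁), z.2 % q ^ (t - t₁)))

/-- the macro-digits of a block which are decided by its first `tu` digits; `c` = the first `tu` digits -/
noncomputable def omF (q m g t₁ : ℕ) (wm : ℕ → ℕ → ℝ) (t tu : ℕ) (c : ℕ × ℕ) : ℝ :=
  ∏ i ∈ range (min ((tu - t₁ - 1) / m) (nb m g t₁ t)),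
    wm (c.1 / q ^ (tu - t₁ - (i + 1) * m) % q ^ m) (c.2 / q ^ (tu - t₁ - (i + 1) * m) % q ^ m)

/-- row KEF: properties of the first part -/
def KEFStmt : Prop := ∀ (q m g t₁ t tu : ℕ) (κ : ℝ) (wm : ℕ → ℕ → ℝ), 2 ≤ q → 1 ≤ m → 1 ≤ g →
  t₁ + g ≤ t → tu ≤ t → 0 ≤ κ → MK q m κ wm →
  (∀ c, 0 ≤ omF q m g t₁ wm t tu c) ∧
  (∀ z, omK q m g t₁ wm t z ≤ 2 * (q : ℝ) ^ (κ * (t - tu + m)) *
    omF q m g t₁ wm t tu (z.1 / q ^ (t - tu), z.2 / q ^ (t - tu))) ∧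
  (∀ V, ∀ i ≤ tu, ∀ b < q ^ i, ∑ A ∈ range (q ^ (tu - i)),
    omF q m g t₁ wm t tu (V, b * q ^ (tu - i) + A) ≤ (q : ℝ) ^ (κ * (i + m)) * (q : ℝ) ^ (tu - i)) ∧
  (∀ V, ∑ A ∈ range (q ^ tu), omF q m g t₁ wm t tu (V, A) = (q : ℝ) ^ tu) ∧
  (t₁ ≤ tu → ∀ z, omF q m g t₁ wm t tu z =
    omF q m g t₁ wm t tu (z.1 % q ^ (tu - t₁), z.2 % q ^ (tu - t₁))) ∧
  (tu ≤ t₁ → ∀ z, omF q m g t₁ wm t tu z = 1)

/-- first part at the truncated point: sum over the four possible true values -/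
noncomputable def omFP (q m g t₁ : ℕ) (wm : ℕ → ℕ → ℝ) (t tu : ℕ) (c : ℕ × ℕ) : ℝ :=
  ∑ d₁ ∈ range 2, ∑ d₂ ∈ range 2,
    omF q m g t₁ wm t tu ((c.1 + d₁) % q ^ tu, (c.2 + d₂) % q ^ tu)

/-- kernels in a window with top `Jt`: `G` gap blocks, then structured blocks of `w` bits -/
noncomputable def omW (q m g t₁ : ℕ) (wm : ℕ → ℕ → ℝ) (w G Jt J : ℕ) (z : ℕ × ℕ) : ℝ :=
  if Jt < J + G * w then 1 else omK q m g t₁ wm (tt q w J) z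

/-! ## Crude bound with a partial first block -/

/-- row CRP: `n + 1` structured blocks from `J`, the first `u` macro-digits of the first block are
treated separately (their density is the first part of the kernel) -/
def CRPStmt : Prop := ∀ (q m g t₁ l k G Jt : ℕ) (κ ε : ℝ) (wm : ℕ → ℕ → ℝ), 2 ≤ q → 1 ≤ m →
  1 ≤ g → 0 ≤ κ → MK q m κ wm → Marg ε l → 0 < l → 0 < k →
  (∀ J, l * k ≤ J → t₁ + g ≤ tt q (l * k) J) →
  ∀ (n J u : ℕ), u ≤ k → l * k * (n + 1) ≤ J → J + G * (l * k) ≤ Jt →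
  ∀ (f : ℕ × ℕ → ℝ) (M : ℝ), (∀ y, 0 ≤ f y) → 0 ≤ M → (∀ y, EP ε l (k * (n + 1) - u) f y ≤ M) →
  ∀ x : ℕ × ℕ, RT q l k ε (omW q m g t₁ wm (l * k) G Jt) J (n + 1) f x ≤
    6 ^ (n + 1) *
    (q : ℝ) ^ (κ * ((tt q (l * k * (n + 1)) J : ℝ) - (tt q (l * u) J : ℝ) + m + 1)) * M *
    EP ε l u (fun y => 1 + 2 * omFP q m g t₁ wm (tt q (l * k) J) (tt q (l * u) J)
      (zz q (l * u) J y)) x

/-- row CRX: crude bound with suprema `Bd j` of the kernels -/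
def CRXStmt : Prop := ∀ (q l k : ℕ) (ε : ℝ) (om : ℕ → ℕ × ℕ → ℝ), Marg ε l →
  ∀ (n J u : ℕ) (Bd : ℕ → ℝ), u ≤ k * n → (∀ j < n, ∀ z, 0 ≤ om (J - l * k * j) z ∧
    om (J - l * k * j) z ≤ Bd j) → (∀ j, 1 ≤ Bd j) →
  ∀ (f : ℕ × ℕ → ℝ) (M : ℝ), (∀ y, 0 ≤ f y) → 0 ≤ M → (∀ y, EP ε l (k * n - u) f y ≤ M) →
  ∀ x : ℕ × ℕ, RT q l k ε om J n f x ≤ (∏ j ∈ range n, (3 * Bd j)) * M

open Classical in
/-- row IND: the induction over the blocks of a window. `Exc b` : exceptional states at the block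
boundary `b` (below the top `Jt`), covered by `Nι` sets `E b i`, each of which has small probability
when one looks back to the boundary `bb b i < b` and the state there is not exceptional -/
def INDStmt : Prop := ∀ (q l k : ℕ) (ε : ℝ) (om : ℕ → ℕ × ℕ → ℝ), Marg ε l →
  (∀ J z, 0 ≤ om J z) → ∀ (Jt NB b₀ Nι : ℕ) (s : ℝ) (Exc : ℕ → ℕ × ℕ → Prop)
    (E : ℕ → ℕ → ℕ × ℕ → Prop) (bb : ℕ → ℕ → ℕ), 1 ≤ Nι → 0 ≤ s →
  (∀ b, b₀ ≤ b → b < NB → ∀ y, Exc b y → ∃ i < Nι, E b i y) →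
  (∀ b, b₀ ≤ b → b < NB → ∀ i < Nι, bb b i < b ∧ ∀ x, (b₀ ≤ bb b i → ¬ Exc (bb b i) x) →
    ET q l k ε om (Jt - l * k * bb b i) (b - bb b i) (fun y => if E b i y then 1 else 0) x ≤ s) →
  ∀ b, b₀ ≤ b → b < NB → ∀ x,
    ET q l k ε om Jt b (fun y => if Exc b y then 1 else 0) x ≤ (2 * Nι) ^ (b + 1) * s

end Pool.Agent.H24.FD
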