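import Mathlib
import Pool.Agent.H24.FD.P2
import Pool.Agent.H84.FD.S

/-!
# MP_1f2761, k = 2: the process, definitions and rows, part 3 (section 5 of the analysis page)
-/

set_option autoImplicit false

open Finset Pool.K2 Pool.FD MeasureTheory

namespace Pool.Agent.H24.FD

/-! ## Constants

`eb = 1/20000` width of typicality; `h = 799/1000`; `κ = 2622/10000`; `d' = 53/100`;
look-back `r' = 186/100 log_2 K`; `c = 1100` blocks; `K_s = 4^w`. -/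

noncomputable def eb : ℝ := 1 / 20000
noncomputable def hh : ℝ := 799 / 1000
noncomputable def kk : ℝ := 2622 / 10000

/-- the free law of `u` typical macro-digits as a weight on pairs of naturals -/
noncomputable def pw (l u : ℕ) (n a : ℕ) : ℝ :=
  ∑ U : Fin u → Fin l → Fin 3, if VN U = n ∧ VA U = a then PT eb U else 0

/-- row GLP -/
def GLPStmt : Prop := ∀ l : ℕ, Marg eb l → ∀ u : ℕ, Wt (l * u) (pw l u) ∧
  ∀ (F : ℕ × ℕ → ℝ) (x : ℕ × ℕ), EP eb l u F x =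
    ∑ n ∈ range (2 ^ (l * u)), ∑ a ∈ range (2 ^ (l * u)),
      pw l u n a * F (2 ^ (l * u) * x.1 + n, 2 ^ (l * u) * x.2 + a)

/-- row GLZ: digits of the state are digits of real numbers -/
def GLZStmt : Prop := ∀ (q W J : ℕ), 2 ≤ q → W ≤ J → ∀ (ν n : ℕ),
  (q : ℝ) ^ tt q W J * (ν * yy q J) + yy q (J - W) * n = ((2 ^ W * ν + n : ℕ) : ℝ) * yy q (J - W) ∧
  (2 ^ W * ν + n) * 2 ^ (J - W) / q ^ II q (J - W) % q ^ tt q W J =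
    fl (q ^ tt q W J) ((q : ℝ) ^ tt q W J * (ν * yy q J) + yy q (J - W) * n) ∧
  0 < yy q J ∧ yy q J ≤ 1 ∧ 1 / q < yy q J ∧
  ((q : ℝ) ^ tt q W J ≤ q * 2 ^ W ∧ (2 : ℝ) ^ W ≤ q * q ^ tt q W J) ∧
  (∀ W', W + W' ≤ J → tt q (W + W') J = tt q W J + tt q W' (J - W))

/-- row HPS (93): decay (1.2) for the free law -/
def HPSStmt : Prop := ∃ C : ℝ, 1 ≤ C ∧ ∃ l₀ : ℕ, ∀ l ≥ l₀, ∀ (u : ℕ) (Kq : ℝ), 1 ≤ Kq →
  HP (l * u) (pw l u) hh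
    (C * 2 ^ l * (l * u + l + 4 + Real.logb 2 Kq) * (2 : ℝ) ^ (-(hh * (l * u)))) Kq

/-- look-back in macro-digits for cells of side `1/K` -/
noncomputable def vv (l K : ℕ) : ℕ := ⌈186 / 100 * Real.logb 2 K / l⌉₊

/-- row DKM (93): mean of `Dk` (1.3) -/
def DKMStmt : Prop := ∃ C : ℝ, 1 ≤ C ∧ ∃ l₀ : ℕ, ∀ l ≥ l₀, ∀ K : ℕ, 1 ≤ K →
  ∫ y in (0 : ℝ)..1, Dk (l * vv l K) (pw l (vv l K)) K y ≤ C * (K : ℝ) ^ (-(485 / 1000 : ℝ))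

/-- row CRN: the crude bound for small sets of cells, from (4.1) -/
def CRNStmt : Prop := Pool.FD.CRUStmt → GLPStmt → GLZStmt →
  ∀ (q l K J v : ℕ), 2 ≤ q → 0 < l → Marg eb l → 1 ≤ K → l * v ≤ J →
  ∀ (E : Finset (ℕ × ℕ)), E ⊆ range K ×ˢ range K →
  (E.card : ℝ) / (K : ℝ) ^ 2 ≤ (K : ℝ) ^ (-(53 / 100 : ℝ)) → ∀ (D : ℝ), 0 ≤ D →
  Dk (l * v) (pw l v) K (yy q (J - l * v)) ≤ D →
  ∀ x : ℕ × ℕ, EP eb l v (fun y => if (ix K (y.1 * yy q (J - l * v)), ix K (y.2 * yy q (J - l * v))) ∈ E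
      then 1 else 0) x ≤
    7 * (K : ℝ) ^ (-(53 / 100 : ℝ)) + 13 * (K : ℝ) ^ (-(265 / 1000 : ℝ)) * Real.sqrt D

/-! ## Exceptional states -/

section exc

variable (q m g t₁ l k G Jt : ℕ) (wm : ℕ → ℕ → ℝ)

/-- density of the first `u` macro-digits of a block -/
noncomputable def OMp (J u : ℕ) (z₁ z₂ : ℕ) : ℝ :=
  1 + 2 * omFP q m g t₁ wm (tt q (l * k) J) (tt q (l * u) J) (z₁, z₂)

/-- density of `n` blocks -/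
noncomputable def OMc (n J : ℕ) (z₁ z₂ : ℕ) : ℝ :=
  OMF q (l * k) (omW q m g t₁ wm (l * k) G Jt) J n (z₁, z₂)

/-- shell of the partial density: `J` bits below the state `x`, first `u` macro-digits -/
noncomputable def ShP (J u i : ℕ) (s₁ s₂ : ℝ) : ℝ :=
  ‖Rsh q i (l * u) (pw l u) (q ^ tt q (l * u) J) (OMp q m g t₁ l k wm J u) (yy q (J - l * u)) s₁ s₂‖

/-- shell of the density of `c` blocks -/
noncomputable def ShC (c J i : ℕ) (s₁ s₂ : ℝ) : ℝ :=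
  ‖Rsh q i (l * k * c) (pw l (k * c)) (q ^ tt q (l * k * c) J)
    (OMc q m g t₁ l k G Jt wm c J) (yy q (J - l * k * c)) s₁ s₂‖

/-- high frequencies of the density of `c` blocks -/
noncomputable def HiC (c J Ks : ℕ) (s₁ s₂ : ℝ) : ℝ :=
  ∑ κ ∈ bx0 Ks, ‖Rs (l * k * c) (pw l (k * c)) (q ^ tt q (l * k * c) J)
    (OMc q m g t₁ l k G Jt wm c J) κ (yy q (J - l * k * c)) s₁ s₂‖ ^ 2

/-- exceptional points, partial blocks -/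
def ExP (J : ℕ) (s₁ s₂ : ℝ) : Prop :=
  ∃ u ∈ Ico 1 k, ∃ i ∈ Ioc t₁ (tt q (l * u) J),
    (q : ℝ) ^ (-(5 / 10000 * i : ℝ)) < ShP q m g t₁ l k wm J u i s₁ s₂

/-- exceptional points, `c` blocks -/
def ExC (c J Ks : ℕ) (s₁ s₂ : ℝ) : Prop :=
  (∃ i ∈ Ioc t₁ (tt q (l * k * c) J),
    (q : ℝ) ^ (-(5 / 10000 * i : ℝ)) < ShC q m g t₁ l k G Jt wm c J i s₁ s₂) ∨
  (2 : ℝ) ^ (-(1 / 1000 * (l * k * c) : ℝ)) < HiC q m g t₁ l k G Jt wm c J Ks s₁ s₂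

/-- good position, partial blocks: the shells are small in mean square -/
def GoodP (J : ℕ) : Prop := ∀ u ∈ Ico 1 k, ∀ i ∈ Ioc t₁ (tt q (l * u) J),
  Fs q i (l * u) (pw l u) (q ^ tt q (l * u) J) (OMp q m g t₁ l k wm J u) (yy q (J - l * u)) ≤
    (q : ℝ) ^ (-(534 / 1000 * i : ℝ))

/-- good position, `c` blocks -/
def GoodC (c J Ks : ℕ) : Prop :=
  (∀ i ∈ Ioc t₁ (tt q (l * k * c) J),
    Fs q i (l * k * c) (pw l (k * c)) (q ^ tt q (l * k * c) J)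
      (OMc q m g t₁ l k G Jt wm c J) (yy q (J - l * k * c)) ≤ (q : ℝ) ^ (-(534 / 1000 * i : ℝ))) ∧
  ∑ κ ∈ bx0 Ks, Fk (l * k * c) (pw l (k * c)) (q ^ tt q (l * k * c) J)
      (OMc q m g t₁ l k G Jt wm c J) κ (yy q (J - l * k * c)) ≤
    (2 : ℝ) ^ (4 * (l * k) - 536 / 1000 * (l * k * c) : ℝ)

/-- good target position: `Dk` small at all scales `K = q^i` and at the scales `K = 2 K_s q^τ` -/
def GoodD (c J Ks : ℕ) : Prop :=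
  ∀ i ≤ l * k * c + 2,
    (t₁ < i → Dk (l * vv l (q ^ i)) (pw l (vv l (q ^ i))) (q ^ i) (yy q J) ≤
      ((q ^ i : ℕ) : ℝ) ^ (-(48 / 100 : ℝ))) ∧
    Dk (l * vv l (2 * Ks * q ^ i)) (pw l (vv l (2 * Ks * q ^ i))) (2 * Ks * q ^ i) (yy q J) ≤
      ((2 * Ks * q ^ i : ℕ) : ℝ) ^ (-(48 / 100 : ℝ))

end exc

/-- hypotheses on the parameters of a window: blocks of `w = l k` bits -/
structure Par (q m g t₁ l k : ℕ) (wm : ℕ → ℕ → ℝ) : Prop where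
  hq : 2 ≤ q
  hq5 : q ≤ 5
  hm : 1 ≤ m
  hg : 1 ≤ g
  hl : 0 < l
  hk : 0 < k
  hw : 30 ≤ l * k
  ht : ∀ J, l * k ≤ J → t₁ + g ≤ tt q (l * k) J
  hmk : MK q m kk wm
  marg : Marg eb l
  shells : ∑' i : ℕ, (q : ℝ) ^ (-(5 / 10000 * (t₁ + 1 + i) : ℝ)) ≤ 1
  low : 200 ≤ (q : ℝ) ^ (3 / 1000 * t₁ : ℝ)

/-- the mass constant -/
noncomputable def C1 (c : ℕ) : ℝ := 7 * 9 ^ c + 1

/-- row MSS: bounded masses of the partial blocks at a non-exceptional state -/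
def MSSStmt : Prop := ∀ (q m g t₁ l k J : ℕ) (wm : ℕ → ℕ → ℝ), Par q m g t₁ l k wm →
  l * k ≤ J → ∀ x : ℕ × ℕ, ¬ ExP q m g t₁ l k wm J (x.1 * yy q J) (x.2 * yy q J) →
  ∀ u < k, EP eb l u (fun y => 1 + 2 * omFP q m g t₁ wm (tt q (l * k) J) (tt q (l * u) J)
      (zz q (l * u) J y)) x ≤ 100

/-- row STP: `c` blocks from a non-exceptional state (5.1) -/
def STPStmt : Prop := ∀ (q m g t₁ l k G Jt c J Ks : ℕ) (wm : ℕ → ℕ → ℝ), Par q m g t₁ l k wm →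
  l * k * c ≤ J → 1 ≤ c → J ≤ Jt → ∀ x : ℕ × ℕ,
  ¬ ExC q m g t₁ l k G Jt wm c J Ks (x.1 * yy q J) (x.2 * yy q J) →
  ∀ K, 1 ≤ K → K ≤ Ks → ∀ B : Finset (ℕ × ℕ), B ⊆ range K ×ˢ range K →
  RT q l k eb (omW q m g t₁ wm (l * k) G Jt) J c (fun y =>
    if (ix K (y.1 * yy q (J - l * k * c)), ix K (y.2 * yy q (J - l * k * c))) ∈ B then 1 else 0) x ≤
    7 * C1 c * ((B.card : ℝ) / (K : ℝ) ^ 2) +
      13 * Real.sqrt ((B.card : ℝ) / (K : ℝ) ^ 2) * (2 : ℝ) ^ (-(1 / 2000 * (l * k * c) : ℝ))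

/-- row COP: the exceptional set of partial blocks is covered by small unions of cells -/
def COPStmt : Prop := ∀ (q m g t₁ l k J : ℕ) (wm : ℕ → ℕ → ℝ), Par q m g t₁ l k wm →
  l * k ≤ J → GoodP q m g t₁ l k wm J →
  ∀ u ∈ Ico 1 k, ∀ i ∈ Ioc t₁ (tt q (l * u) J), ∃ E : Finset (ℕ × ℕ), E ⊆ range (q ^ i) ×ˢ range (q ^ i) ∧
    (E.card : ℝ) / ((q ^ i : ℕ) : ℝ) ^ 2 ≤ ((q ^ i : ℕ) : ℝ) ^ (-(53 / 100 : ℝ)) ∧
    ∀ s₁ s₂ : ℝ, (q : ℝ) ^ (-(5 / 10000 * i : ℝ)) < ShP q m g t₁ l k wm J u i s₁ s₂ →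
      (ix (q ^ i) s₁, ix (q ^ i) s₂) ∈ E

/-- row COC: the same for `c` blocks -/
def COCStmt : Prop := ∀ (q m g t₁ l k G Jt c J Ks : ℕ) (wm : ℕ → ℕ → ℝ), Par q m g t₁ l k wm →
  l * k * c ≤ J → Ks = 4 ^ (l * k) → 1100 ≤ c → GoodC q m g t₁ l k G Jt wm c J Ks →
  (∀ i ∈ Ioc t₁ (tt q (l * k * c) J), ∃ E : Finset (ℕ × ℕ), E ⊆ range (q ^ i) ×ˢ range (q ^ i) ∧
    (E.card : ℝ) / ((q ^ i : ℕ) : ℝ) ^ 2 ≤ ((q ^ i : ℕ) : ℝ) ^ (-(53 / 100 : ℝ)) ∧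
    ∀ s₁ s₂ : ℝ, (q : ℝ) ^ (-(5 / 10000 * i : ℝ)) < ShC q m g t₁ l k G Jt wm c J i s₁ s₂ →
      (ix (q ^ i) s₁, ix (q ^ i) s₂) ∈ E) ∧
  (∀ K : ℕ, K = 2 * Ks * q ^ tt q (l * k * c) J → ∃ E : Finset (ℕ × ℕ), E ⊆ range K ×ˢ range K ∧
    (E.card : ℝ) / (K : ℝ) ^ 2 ≤ (K : ℝ) ^ (-(53 / 100 : ℝ)) ∧
    ∀ s₁ s₂ : ℝ, (2 : ℝ) ^ (-(1 / 1000 * (l * k * c) : ℝ)) < HiC q m g t₁ l k G Jt wm c J Ks s₁ s₂ →
      (ix K s₁, ix K s₂) ∈ E)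

/-- number of scales -/
def NI (l k c : ℕ) : ℕ := (k + 2) * (l * k * c + 3)

/-- the small quantity of the induction -/
noncomputable def s0 (q m t₁ l c : ℕ) : ℝ :=
  6 ^ (2 * c) * 20 * 100 * (q : ℝ) ^ (m + 3) * (2 : ℝ) ^ (27 / 100 * l : ℝ) *
    (q : ℝ) ^ (-(17 / 1000 * t₁ : ℝ))

/-- row CRF: crude bound for one scale, in a window, from a state at the look-back boundary.
`b` = block index of the target, `v = vv l K` macro-digits of look-back, `n = ⌈v / k⌉` blocks -/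
def CRFStmt : Prop := ∀ (q m g t₁ l k G Jt c K : ℕ) (wm : ℕ → ℕ → ℝ), Par q m g t₁ l k wm →
  ∀ (b n : ℕ) (E : Finset (ℕ × ℕ)), l * k * b ≤ Jt → n ≤ b → 1 ≤ n → n ≤ 2 * c →
  vv l K ≤ k * n → k * n < vv l K + k → q ^ (t₁ + 1) ≤ K → E ⊆ range K ×ˢ range K →
  (E.card : ℝ) / (K : ℝ) ^ 2 ≤ (K : ℝ) ^ (-(53 / 100 : ℝ)) →
  Dk (l * vv l K) (pw l (vv l K)) K (yy q (Jt - l * k * b)) ≤ (K : ℝ) ^ (-(48 / 100 : ℝ)) →
  ∀ x : ℕ × ℕ, (G ≤ b - n → ¬ ExP q m g t₁ l k wm (Jt - l * k * (b - n))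
      (x.1 * yy q (Jt - l * k * (b - n))) (x.2 * yy q (Jt - l * k * (b - n)))) →
  ET q l k eb (omW q m g t₁ wm (l * k) G Jt) (Jt - l * k * (b - n)) n
    (fun y => if (ix K (y.1 * yy q (Jt - l * k * b)), ix K (y.2 * yy q (Jt - l * k * b))) ∈ E
      then 1 else 0) x ≤ s0 q m t₁ l c

/-- row SFV (5.4): `c = 1100`, gap of `G = 3200` blocks, `T` structured blocks, exceptional sets
from block `2100` on -/
def SFVStmt : Prop := ∀ (q m g t₁ l k T Jt : ℕ) (wm : ℕ → ℕ → ℝ), Par q m g t₁ l k wm →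
  200 ≤ k → l * k * (3200 + T) ≤ Jt →
  (∀ b, 2100 ≤ b → b < 3200 + T →
    GoodP q m g t₁ l k wm (Jt - l * k * b) ∧ GoodD q t₁ l k 1100 (Jt - l * k * b) (4 ^ (l * k)) ∧
    (b + 1100 ≤ 3200 + T → GoodC q m g t₁ l k 3200 Jt wm 1100 (Jt - l * k * b) (4 ^ (l * k)))) →
  ∀ b, 3200 ≤ b → b < 3200 + T → ∀ K, 1 ≤ K → K ≤ 4 ^ (l * k) →
  ∀ B : Finset (ℕ × ℕ), B ⊆ range K ×ˢ range K → ∀ x : ℕ × ℕ,
  ET q l k eb (omW q m g t₁ wm (l * k) 3200 Jt) Jt b (fun y =>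
    if (ix K (y.1 * yy q (Jt - l * k * b)), ix K (y.2 * yy q (Jt - l * k * b))) ∈ B then 1 else 0) x ≤
    (2 * NI l k 1100) ^ (3200 + T + 1) * s0 q m t₁ l 1100 +
      7 * C1 1100 * ((B.card : ℝ) / (K : ℝ) ^ 2) + 13 * Real.sqrt ((B.card : ℝ) / (K : ℝ) ^ 2)

end Pool.Agent.H24.FD
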