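import Mathlib
import Pool.Agent.H24.FD.P3
import Pool.Agent.H84.FD.S2

/-!
# MP_1f2761, k = 2: the process, definitions and rows, part 4 (one block)
-/

set_option autoImplicit false

open Finset Pool.K2 Pool.FD MeasureTheory

namespace Pool.Agent.H24.FD

/-- all positions of a window are good (hypothesis of `SFVStmt`) -/
def WGood (q m g t₁ l k T Jt : ℕ) (wm : ℕ → ℕ → ℝ) : Prop :=
  ∀ b, 2100 ≤ b → b < 3200 + T →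
    GoodP q m g t₁ l k wm (Jt - l * k * b) ∧ GoodD q t₁ l k 1100 (Jt - l * k * b) (4 ^ (l * k)) ∧
    (b + 1100 ≤ 3200 + T → GoodC q m g t₁ l k 3200 Jt wm 1100 (Jt - l * k * b) (4 ^ (l * k)))

open Classical in
/-- row AVF (84): almost all windows are good; `W = l * l * (3200 + T)`; `J + (i+1) W` = top -/
def AVFStmt : Prop := ∀ q : ℕ, (q = 3 ∨ q = 5) → ∀ m g T : ℕ, 1 ≤ m → 1 ≤ g → ∀ θ : ℝ, 0 < θ →
  ∀ δ : ℝ, 0 < δ → ∃ l₀ : ℕ, ∀ l ≥ l₀, ∀ wm : ℕ → ℕ → ℝ, MK q m kk wm → ∀ t₁ : ℕ, θ * l ^ 2 ≤ t₁ →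
  (∀ J, l * l ≤ J → t₁ + g ≤ tt q (l * l) J) → ∀ W : ℕ, W = l * l * (3200 + T) →
  ∃ K₀ : ℕ, ∀ K ≥ K₀, ∀ J : ℕ,
    (((range K).filter fun i => ¬ WGood q m g t₁ l l T (J + (i + 1) * W) wm).card : ℝ) ≤ δ * K

open Classical in
/-- typical values of the `N` part of a block -/
noncomputable def HH (l k : ℕ) : Finset ℕ :=
  (range (2 ^ (l * k))).filter fun e => ∀ S : Fin k → Fin l → Fin 3, VN S = e → ∀ i, typN eb (S i)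

/-- conditional law of the `a` part given the `N` part `e` -/
noncomputable def kc (l k : ℕ) (e x : ℕ) : ℝ :=
  2 ^ (l * k) * ∑ S : Fin k → Fin l → Fin 3, if VN S = e ∧ VA S = x then PF eb S else 0

/-- block kernel, curried -/
noncomputable def omv (q m g t₁ : ℕ) (wm : ℕ → ℕ → ℝ) (t V A : ℕ) : ℝ := omK q m g t₁ wm t (V, A)

section one

variable (q m g t₁ l k : ℕ) (wm : ℕ → ℕ → ℝ)

/-- the quenched mass as a function of the torus point -/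
noncomputable def Zt (J e : ℕ) (s₁ s₂ : ℝ) : ℝ :=
  Zf (l * k) (kc l k e) (q ^ tt q (l * k) J) (omv q m g t₁ wm (tt q (l * k) J)) (yy q (J - l * k)) e s₁ s₂

/-- probability that the block is lost (typical part) -/
noncomputable def Lo (J : ℕ) (s₁ s₂ : ℝ) : ℝ :=
  (∑ e ∈ HH l k, if Zt q m g t₁ l k wm J e s₁ s₂ < 1 / 2 then (1 : ℝ) else 0) / 2 ^ (l * k)

/-- mean deviation of the quenched mass -/
noncomputable def Di (J : ℕ) (s₁ s₂ : ℝ) : ℝ :=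
  (∑ e ∈ HH l k, |Zt q m g t₁ l k wm J e s₁ s₂ - 1|) / 2 ^ (l * k)

/-- phase sum of the first `u` macro-digits -/
noncomputable def Gt (J u : ℕ) (κ : ℤ × ℤ) (th s₁ s₂ : ℝ) : ℝ :=
  ‖Gf (l * k) (l * u) (pw l k) (q ^ tt q (l * k) J) (omv q m g t₁ wm (tt q (l * k) J)) κ
    (yy q (J - l * k)) th s₁ s₂‖

end one

/-- row ZZF: the quenched mass of the process is `Zt` -/
def ZZFStmt : Prop := ∀ (q m g t₁ l k G Jt J : ℕ) (wm : ℕ → ℕ → ℝ), 2 ≤ q → l * k ≤ J →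
  J + G * (l * k) ≤ Jt → ∀ (x : ℕ × ℕ) (S : Fin k → Fin l → Fin 3),
  ZZ q l k eb (omW q m g t₁ wm (l * k) G Jt) J x S =
    Zt q m g t₁ l k wm J (VN S) (x.1 * yy q J) (x.2 * yy q J)

open Classical in
/-- row LOR: probability of a typical lost block -/
def LORStmt : Prop := ∀ (q m g t₁ l k G Jt J : ℕ) (wm : ℕ → ℕ → ℝ), Par q m g t₁ l k wm → l * k ≤ J →
  J + G * (l * k) ≤ Jt → ∀ x : ℕ × ℕ,
  ∑ S : Fin k → Fin l → Fin 3, (if (∀ i, typN eb (S i)) ∧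
      ¬ keep q l k eb (omW q m g t₁ wm (l * k) G Jt) J x S then
      piQ q l k eb (omW q m g t₁ wm (l * k) G Jt) J x S else 0) =
    Lo q m g t₁ l k wm J (x.1 * yy q J) (x.2 * yy q J)

/-- row UNI: digits of `N` in a block are almost uniform -/
def UNIStmt : Prop := ∀ (q t w : ℕ) (c y : ℝ), 2 ≤ q → 1 / q < y → y ≤ 1 → y * 2 ^ w ≤ q ^ t →
  0 ≤ c → ∀ S : Finset ℕ, S ⊆ range (q ^ t) →
  (((range (2 ^ w)).filter fun η : ℕ => fl (q ^ t) (c + y * η) ∈ S).card : ℝ) ≤ 2 * q * S.card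

/-- row DIG: decided levels of a kept block in its own base: `z` = truncated digits of `x'`,
`J'` = bits below `x'`; `o` = offset of a macro-digit, `1 ≤ j ≤ m` -/
def DIGStmt : Prop := ∀ (q m g t J' o j : ℕ) (x' : ℕ × ℕ) (V A : ℕ), 2 ≤ q → 1 ≤ g → g ≤ o →
  j ≤ m → 1 ≤ j → o + m ≤ t → V = x'.1 * 2 ^ J' / q ^ II q J' % q ^ t →
  A = x'.2 * 2 ^ J' / q ^ II q J' % q ^ t → V % q ^ g ≠ q ^ g - 1 → A % q ^ g ≠ q ^ g - 1 →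
  (V / q ^ o % q ^ m) % q ^ j < (A / q ^ o % q ^ m) % q ^ j → Sure q (II q J' + o + j) J' x'

open Classical in
/-- row ONQ: one structured block, base `q` levels. `Sx` = exceptional values of the macro-digit of `N` -/
def ONQStmt : Prop := ∀ (q m g t₁ l k G Jt J : ℕ) (wm : ℕ → ℕ → ℝ) (xq εk : ℝ),
  Par q m g t₁ l k wm → l * k ≤ J → J + G * (l * k) ≤ Jt → 0 ≤ εk → εk ≤ xq → xq ≤ 1 →
  ((((range (q ^ m)).filter fun V => ∃ A < q ^ m, wm V A ≠ 0 ∧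
      (ncar q m V A : ℝ) < (xq - εk) * m).card : ℝ) ≤ εk * (q : ℝ) ^ m) →
  ∀ x : ℕ × ℕ,
  EQ q l k eb (omW q m g t₁ wm (l * k) G Jt) J 1
      (fun y => (bad q (l * k) (J - l * k) y : ℝ)) x ≤
    t₁ + g + 2 * m + 2 + (1 - xq + εk) * tt q (l * k) J +
      (2 * q ^ 2 * εk + 2 * q ^ 2 / (q : ℝ) ^ g) * tt q (l * k) J +
      tt q (l * k) J * (Lo q m g t₁ l k wm J (x.1 * yy q J) (x.2 * yy q J) + k * atyp eb l)

open Classical in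
/-- row ONP (8.3): one structured block, one base `p` level `I = II p (J - l u) + b` -/
def ONPStmt : Prop := ∀ (q m g t₁ l k G Jt J p u b K₀ : ℕ) (wm : ℕ → ℕ → ℝ) (c : ℝ) (Mj : ℤ × ℤ → ℂ),
  Par q m g t₁ l k wm → l * k ≤ J → J + G * (l * k) ≤ Jt → 2 ≤ p → u ≤ k →
  yy p (J - l * u) / (p : ℝ) ^ b ≤ c → 0 < K₀ →
  (∀ x1 x2 : ℝ, (tp K₀ Mj x1 x2).im = 0 ∧ 0 ≤ (tp K₀ Mj x1 x2).re ∧
    (¬ (Int.fract x1 + c < Int.fract x2 ∧ Int.fract x2 < 1 - c) → 1 ≤ (tp K₀ Mj x1 x2).re)) →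
  (Mj 0).im = 0 → 0 ≤ (Mj 0).re → ∀ x : ℕ × ℕ,
  ∑ S : Fin k → Fin l → Fin 3, (if (∀ i, typN eb (S i)) ∧
      ¬ Sure p (II p (J - l * u) + b) (J - l * k) (app x S) then
      piQ q l k eb (omW q m g t₁ wm (l * k) G Jt) J x S else 0) ≤
    (Mj 0).re * (1 + Di q m g t₁ l k wm J (x.1 * yy q J) (x.2 * yy q J)) +
      ∑ κ ∈ bx0 K₀, ‖Mj κ‖ * Gt q m g t₁ l k wm J u κ (yy p (J - l * u) / (p : ℝ) ^ b)
        (x.1 * yy q J) (x.2 * yy q J) +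
      Di q m g t₁ l k wm J (x.1 * yy q J) (x.2 * yy q J) +
      Lo q m g t₁ l k wm J (x.1 * yy q J) (x.2 * yy q J)

/-- row BSW: base 2 levels of a window -/
def BSWStmt : Prop := ∀ (q l k n Jt : ℕ) (om : ℕ → ℕ × ℕ → ℝ), Marg eb l → 0 < l → 0 < k →
  (∀ J z, 0 ≤ om J z) → l * k * n ≤ Jt → ∀ x : ℕ × ℕ,
  EQ q l k eb om Jt n (fun y => (bad 2 (l * k * n) (Jt - l * k * n) y : ℝ)) x ≤
    l + l * k * n * atyp eb l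

/-- row LEVB: levels of a window are the levels of its blocks; decided levels stay decided -/
def LEVBStmt : Prop := ∀ (q l k n Jt p : ℕ) (om : ℕ → ℕ × ℕ → ℝ), 2 ≤ p → Marg eb l →
  (∀ J z, 0 ≤ om J z) → l * k * n ≤ Jt → ∀ x : ℕ × ℕ,
  EQ q l k eb om Jt n (fun y => (bad p (l * k * n) (Jt - l * k * n) y : ℝ)) x ≤
    ∑ b ∈ range n, EQ q l k eb om Jt b (fun x' => EQ q l k eb om (Jt - l * k * b) 1
      (fun y => (bad p (l * k) (Jt - l * k * (b + 1)) y : ℝ)) x') x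

/-- row BCT: trivial bound for the number of levels of a block -/
def BCTStmt : Prop := ∀ (p w J : ℕ) (y : ℕ × ℕ), 2 ≤ p → (bad p w J y : ℝ) ≤ tt p w (J + w)

/-! ## Small sets of cells -/

/-- good position for the quenched mass (`J` = top of the block, margin `2^-l`) -/
def GoodF (q m g t₁ l k : ℕ) (wm : ℕ → ℕ → ℝ) (J : ℕ) : Prop :=
  (∑ e ∈ HH l k, F1f l (l * k) (kc l k e) (q ^ tt q (l * k) J) (omv q m g t₁ wm (tt q (l * k) J))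
    (yy q (J - l * k))) / 2 ^ (l * k) ≤ (q : ℝ) ^ (-(3 / 10 * t₁ : ℝ))

/-- row LCE: cells with large `Lo` or `Di` (from F1B, F1D) -/
def LCEStmt : Prop := ∀ (q m g t₁ l k J : ℕ) (wm : ℕ → ℕ → ℝ) (del : ℝ), Par q m g t₁ l k wm →
  3 ≤ l → l * k ≤ J → 0 < del → GoodF q m g t₁ l k wm J →
  ∃ B : Finset (ℕ × ℕ), B ⊆ range (q ^ tt q (l * k) J * 2 ^ l) ×ˢ range (q ^ tt q (l * k) J * 2 ^ l) ∧
    (B.card : ℝ) / ((q ^ tt q (l * k) J * 2 ^ l : ℕ) : ℝ) ^ 2 ≤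
      (32 / 2 ^ l + 18 * (q : ℝ) ^ (-(15 / 100 * t₁ : ℝ))) / del ∧
    ∀ s₁ s₂ : ℝ, (ix (q ^ tt q (l * k) J * 2 ^ l) s₁, ix (q ^ tt q (l * k) J * 2 ^ l) s₂) ∉ B →
      Lo q m g t₁ l k wm J s₁ s₂ ≤ del ∧ Di q m g t₁ l k wm J s₁ s₂ ≤ del

/-- good position for the phases in base `p`: `u₁ ≤ u`, margins `hm ≤ b`, degree `K₀` -/
def GoodG (q m g t₁ l k : ℕ) (wm : ℕ → ℕ → ℝ) (p u₁ hm K₀ : ℕ) (d : ℝ) (J : ℕ) : Prop :=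
  ∀ u ∈ Icc u₁ k, ∀ b ∈ Icc hm (hm + l), ∀ κ ∈ bx0 K₀,
    F4f (l * k) (l * u) (pw l k) (q ^ tt q (l * k) J) (q ^ l) (omv q m g t₁ wm (tt q (l * k) J)) κ
      (yy q (J - l * k)) (yy p (J - l * u) / (p : ℝ) ^ b) ≤ d

/-- row GCE: cells with large phase sums (from GBD) -/
def GCEStmt : Prop := ∀ (q m g t₁ l k p u₁ hm K₀ J : ℕ) (wm : ℕ → ℕ → ℝ) (d d' : ℝ),
  Par q m g t₁ l k wm → 1 ≤ l → l * k ≤ J → 0 < d → 0 < d' →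
  GoodG q m g t₁ l k wm p u₁ hm K₀ d J → ∀ u ∈ Icc u₁ k, ∀ b ∈ Icc hm (hm + l), ∀ κ ∈ bx0 K₀,
  ∃ B : Finset (ℕ × ℕ), B ⊆ range (q ^ tt q (l * k) J * 2 ^ l) ×ˢ range (q ^ tt q (l * k) J * 2 ^ l) ∧
    (B.card : ℝ) / ((q ^ tt q (l * k) J * 2 ^ l : ℕ) : ℝ) ^ 2 ≤
      d / d' ^ 2 + 14 * (Real.log ((q : ℝ) ^ l) + 5) / ((q : ℝ) ^ l * d') + 36 / (2 ^ l * d') ∧
    ∀ s₁ s₂ : ℝ, (ix (q ^ tt q (l * k) J * 2 ^ l) s₁, ix (q ^ tt q (l * k) J * 2 ^ l) s₂) ∉ B →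
      Gt q m g t₁ l k wm J u κ (yy p (J - l * u) / (p : ℝ) ^ b) s₁ s₂ ≤ 3 * d'

open Classical in
/-- row AVS (F1): almost all windows have `GoodF` at all structured blocks -/
def AVSStmt : Prop := ∀ q : ℕ, (q = 3 ∨ q = 5) → ∀ m g T : ℕ, 1 ≤ m → 1 ≤ g → ∀ θ : ℝ, 0 < θ →
  ∀ δ : ℝ, 0 < δ → ∃ l₀ : ℕ, ∀ l ≥ l₀, ∀ wm : ℕ → ℕ → ℝ, MK q m kk wm → ∀ t₁ : ℕ, θ * l ^ 2 ≤ t₁ →
  (∀ J, l * l ≤ J → t₁ + g ≤ tt q (l * l) J) → ∀ W : ℕ, W = l * l * (3200 + T) →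
  ∃ K₀ : ℕ, ∀ K ≥ K₀, ∀ J : ℕ,
    (((range K).filter fun i => ¬ ∀ b, 3200 ≤ b → b < 3200 + T →
      GoodF q m g t₁ l l wm (J + (i + 1) * W - l * l * b)).card : ℝ) ≤ δ * K

open Classical in
/-- row AVG (F4): almost all windows have `GoodG` at all structured blocks -/
def AVGStmt : Prop := ∀ q : ℕ, (q = 3 ∨ q = 5) → ∀ p : ℕ, p.Prime → p ≠ 2 → p ≠ q →
  ∀ m g T hm K₀ : ℕ, 1 ≤ m → 1 ≤ g → ∀ θ : ℝ, 0 < θ → ∀ d : ℝ, 0 < d →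
  ∀ δ : ℝ, 0 < δ → ∃ l₀ : ℕ, ∀ l ≥ l₀, ∀ wm : ℕ → ℕ → ℝ, MK q m kk wm → ∀ t₁ u₁ : ℕ, θ * l ^ 2 ≤ t₁ →
  (∀ J, l * l ≤ J → t₁ + g ≤ tt q (l * l) J) → θ * l ≤ u₁ → ∀ W : ℕ, W = l * l * (3200 + T) →
  ∃ K₁ : ℕ, ∀ K ≥ K₁, ∀ J : ℕ,
    (((range K).filter fun i => ¬ ∀ b, 3200 ≤ b → b < 3200 + T →
      GoodG q m g t₁ l l wm p u₁ hm K₀ d (J + (i + 1) * W - l * l * b)).card : ℝ) ≤ δ * K

/-- row KEQ: sharper cell averages of the block kernel (for F1T) -/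
def KEQStmt : Prop := ∀ (q m g t₁ t : ℕ) (κ : ℝ) (wm : ℕ → ℕ → ℝ), 2 ≤ q → 1 ≤ m → 1 ≤ g →
  t₁ + g ≤ t → 0 ≤ κ → MK q m κ wm →
  ∀ V, ∀ i, t₁ ≤ i → i ≤ t → ∀ b < q ^ i, ∑ A ∈ range (q ^ (t - i)),
    omK q m g t₁ wm t (V, b * q ^ (t - i) + A) ≤
      (q : ℝ) ^ (t - i) * (2 * (q : ℝ) ^ (κ * m) * ((q : ℝ) ^ (i - t₁)) ^ κ)

end Pool.Agent.H24.FD
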