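import Mathlib
import Pool.Agent.H24.FD.P4

/-!
# MP_1f2761, k = 2: the process, definitions and rows, part 5 (windows, choice of parameters, `Win`)
-/

set_option autoImplicit false

open Finset Pool.K2 Pool.FD MeasureTheory

namespace Pool.Agent.H24.FD

/-- the law of the new bits of a window of `n` blocks, `Jt` bits below the state `x` -/
noncomputable def PW (q l k : ℕ) (ε : ℝ) (om : ℕ → ℕ × ℕ → ℝ) (Jt n : ℕ) (x : ℕ × ℕ) (η ξ : ℕ) : ℝ :=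
  EQ q l k ε om Jt n (fun y =>
    if y = (2 ^ (l * k * n) * x.1 + η, 2 ^ (l * k * n) * x.2 + ξ) then 1 else 0) x

/-- row LAW: the process as a kernel -/
def LAWStmt : Prop := ∀ (q l k : ℕ) (ε : ℝ) (om : ℕ → ℕ × ℕ → ℝ), Marg ε l → (∀ J z, 0 ≤ om J z) →
  ∀ (n Jt : ℕ) (x : ℕ × ℕ), (∀ η ξ, 0 ≤ PW q l k ε om Jt n x η ξ) ∧
  (∀ η < 2 ^ (l * k * n),
    ∑ ξ ∈ range (2 ^ (l * k * n)), PW q l k ε om Jt n x η ξ = 1 / 2 ^ (l * k * n)) ∧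
  (∀ f : ℕ × ℕ → ℝ, EQ q l k ε om Jt n f x =
    ∑ η ∈ range (2 ^ (l * k * n)), ∑ ξ ∈ range (2 ^ (l * k * n)), PW q l k ε om Jt n x η ξ *
      f (2 ^ (l * k * n) * x.1 + η, 2 ^ (l * k * n) * x.2 + ξ))

/-- row ONN: the kernels are nonnegative -/
def ONNStmt : Prop := ∀ (q m g t₁ w G Jt : ℕ) (κ : ℝ) (wm : ℕ → ℕ → ℝ), 2 ≤ q → 1 ≤ g →
  MK q m κ wm → ∀ J z, 0 ≤ omW q m g t₁ wm w G Jt J z

/-- bound for the number of base `p` levels in `w` bits -/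
noncomputable def tm (p w : ℕ) : ℝ := w / Real.logb 2 p + 1

/-- row TMB: number of digits -/
def TMBStmt : Prop := ∀ (p w J : ℕ), 2 ≤ p → w ≤ J →
  (tt p w J : ℝ) ≤ tm p w ∧ (w : ℝ) / Real.logb 2 p - 1 ≤ tt p w J ∧ tt 2 w J = w ∧
  (3 ≤ p → 3 ≤ w → tm p w ≤ w)

/-- row KLE: the cells of `LCE`, `GCE` are allowed in `SFV` -/
def KLEStmt : Prop := ∀ (q l k J : ℕ), 2 ≤ q → q ≤ 5 → 3 ≤ l → 200 ≤ k → l * k ≤ J →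
  1 ≤ q ^ tt q (l * k) J * 2 ^ l ∧ q ^ tt q (l * k) J * 2 ^ l ≤ 4 ^ (l * k)

/-- error of a window, `ρ` = measure of the cells -/
noncomputable def er (q m t₁ l k T : ℕ) (ρ : ℝ) : ℝ :=
  (2 * NI l k 1100) ^ (3200 + T + 1) * s0 q m t₁ l 1100 + 7 * C1 1100 * ρ + 13 * Real.sqrt ρ +
    (3200 + T + 1) * (k * atyp eb l)

/-- measure of the cells of `LCE` -/
noncomputable def rhoL (q t₁ l : ℕ) (del : ℝ) : ℝ :=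
  (32 / 2 ^ l + 18 * (q : ℝ) ^ (-(15 / 100 * t₁ : ℝ))) / del

/-- measure of the cells of `GCE` -/
noncomputable def rhoG (q l : ℕ) (d d' : ℝ) : ℝ :=
  d / d' ^ 2 + 14 * (Real.log ((q : ℝ) ^ l) + 5) / ((q : ℝ) ^ l * d') + 36 / (2 ^ l * d')

open Classical in
/-- row CEL: expectation at a block boundary of a function bounded off a small union of cells
(from SFV, SPL, EQB) -/
def CELStmt : Prop := ∀ (q m g t₁ l k T Jt : ℕ) (wm : ℕ → ℕ → ℝ), Par q m g t₁ l k wm →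
  200 ≤ k → l * k * (3200 + T) ≤ Jt → WGood q m g t₁ l k T Jt wm →
  ∀ b, 3200 ≤ b → b < 3200 + T → ∀ K, 1 ≤ K → K ≤ 4 ^ (l * k) →
  ∀ B : Finset (ℕ × ℕ), B ⊆ range K ×ˢ range K → ∀ ρ : ℝ, (B.card : ℝ) / (K : ℝ) ^ 2 ≤ ρ →
  ∀ (f : ℕ × ℕ → ℝ) (A : ℝ), (∀ y, f y ≤ A + k * atyp eb l +
    (if (ix K (y.1 * yy q (Jt - l * k * b)), ix K (y.2 * yy q (Jt - l * k * b))) ∈ B then 1 else 0)) →
  ∀ x : ℕ × ℕ, EQ q l k eb (omW q m g t₁ wm (l * k) 3200 Jt) Jt b f x ≤ A + er q m t₁ l k T ρ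

open Classical in
/-- row WNQ: a good window, base `q` levels (from LEVB, BCT, TMB, ONQ, LCE, KLE, CEL) -/
def WNQStmt : Prop := ∀ (q m g t₁ l k T Jt : ℕ) (wm : ℕ → ℕ → ℝ) (xq εk del : ℝ),
  Par q m g t₁ l k wm → 200 ≤ k → 3 ≤ l → 0 < del → l * k * (3200 + T) ≤ Jt →
  0 ≤ εk → εk ≤ xq → xq ≤ 1 →
  ((((range (q ^ m)).filter fun V => ∃ A < q ^ m, wm V A ≠ 0 ∧
      (ncar q m V A : ℝ) < (xq - εk) * m).card : ℝ) ≤ εk * (q : ℝ) ^ m) →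
  WGood q m g t₁ l k T Jt wm →
  (∀ b, 3200 ≤ b → b < 3200 + T → GoodF q m g t₁ l k wm (Jt - l * k * b)) → ∀ x : ℕ × ℕ,
  EQ q l k eb (omW q m g t₁ wm (l * k) 3200 Jt) Jt (3200 + T)
      (fun y => (bad q (l * k * (3200 + T)) (Jt - l * k * (3200 + T)) y : ℝ)) x ≤
    3200 * tm q (l * k) + T * (t₁ + g + 2 * m + 2 + tm q (l * k) *
      ((1 - xq + εk) + (2 * q ^ 2 * εk + 2 * q ^ 2 / (q : ℝ) ^ g) + del +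
        er q m t₁ l k T (rhoL q t₁ l del)))

open Classical in
/-- levels of a block which are treated by `ONP` -/
noncomputable def Cv (p l k u₁ hm J : ℕ) : Finset ℕ :=
  (range (J + 1)).filter fun I => 2 ^ (J - l * k) ≤ p ^ I ∧ p ^ I < 2 ^ J ∧
    ∃ u ∈ Icc u₁ k, ∃ b ∈ Icc hm (hm + l), I = II p (J - l * u) + b

open Classical in
/-- row COV: the other levels are few -/
def COVStmt : Prop := ∀ (p l k u₁ hm J : ℕ), 3 ≤ p → 3 ≤ l → u₁ ≤ k → l * k ≤ J →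
  ((Cv p l k u₁ hm J).card : ℝ) ≤ tm p (l * k) ∧ ∀ y : ℕ × ℕ,
  (bad p (l * k) (J - l * k) y : ℝ) ≤ hm + tm p (l * u₁) +
    ∑ I ∈ Cv p l k u₁ hm J, (if Sure p I (J - l * k) y then (0 : ℝ) else 1)

open Classical in
/-- row ONL: one level from one block, off a small union of cells (from ONP, LCE, GCE, SPL, EQB) -/
def ONLStmt : Prop := ∀ (q m g t₁ l k G Jt J p u₁ hm u b K₀ : ℕ) (wm : ℕ → ℕ → ℝ) (c del d d' : ℝ)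
  (Mj : ℤ × ℤ → ℂ), Par q m g t₁ l k wm → 3 ≤ l → l * k ≤ J → J + G * (l * k) ≤ Jt → 3 ≤ p →
  0 < del → 0 < d → 0 < d' → 1 / (p : ℝ) ^ hm ≤ c → 0 < K₀ →
  (∀ x1 x2 : ℝ, (tp K₀ Mj x1 x2).im = 0 ∧ 0 ≤ (tp K₀ Mj x1 x2).re ∧
    (¬ (Int.fract x1 + c < Int.fract x2 ∧ Int.fract x2 < 1 - c) → 1 ≤ (tp K₀ Mj x1 x2).re)) →
  (Mj 0).im = 0 → 0 ≤ (Mj 0).re →
  GoodF q m g t₁ l k wm J → GoodG q m g t₁ l k wm p u₁ hm K₀ d J →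
  u ∈ Icc u₁ k → b ∈ Icc hm (hm + l) →
  ∃ B : Finset (ℕ × ℕ), B ⊆ range (q ^ tt q (l * k) J * 2 ^ l) ×ˢ range (q ^ tt q (l * k) J * 2 ^ l) ∧
    (B.card : ℝ) / ((q ^ tt q (l * k) J * 2 ^ l : ℕ) : ℝ) ^ 2 ≤
      rhoL q t₁ l del + (2 * K₀) ^ 2 * rhoG q l d d' ∧
    ∀ x : ℕ × ℕ, EQ q l k eb (omW q m g t₁ wm (l * k) G Jt) J 1
        (fun y => if Sure p (II p (J - l * u) + b) (J - l * k) y then 0 else 1) x ≤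
      ((Mj 0).re * (1 + del) + 3 * d' * ∑ κ ∈ bx0 K₀, ‖Mj κ‖ + 2 * del) + k * atyp eb l +
      (if (ix (q ^ tt q (l * k) J * 2 ^ l) (x.1 * yy q J),
        ix (q ^ tt q (l * k) J * 2 ^ l) (x.2 * yy q J)) ∈ B then 1 else 0)

open Classical in
/-- row WNP: a good window, base `p` levels (from LEVB, BCT, TMB, COV, ONL, KLE, CEL) -/
def WNPStmt : Prop := ∀ (q m g t₁ l k T Jt p u₁ hm K₀ : ℕ) (wm : ℕ → ℕ → ℝ) (c del d d' : ℝ)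
  (Mj : ℤ × ℤ → ℂ), Par q m g t₁ l k wm → 200 ≤ k → 3 ≤ l → l * k * (3200 + T) ≤ Jt → 3 ≤ p →
  0 < del → 0 < d → 0 < d' → 1 / (p : ℝ) ^ hm ≤ c → 0 < K₀ → u₁ ≤ k →
  (∀ x1 x2 : ℝ, (tp K₀ Mj x1 x2).im = 0 ∧ 0 ≤ (tp K₀ Mj x1 x2).re ∧
    (¬ (Int.fract x1 + c < Int.fract x2 ∧ Int.fract x2 < 1 - c) → 1 ≤ (tp K₀ Mj x1 x2).re)) →
  (Mj 0).im = 0 → 0 ≤ (Mj 0).re →
  WGood q m g t₁ l k T Jt wm →
  (∀ b, 3200 ≤ b → b < 3200 + T → GoodF q m g t₁ l k wm (Jt - l * k * b) ∧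
    GoodG q m g t₁ l k wm p u₁ hm K₀ d (Jt - l * k * b)) → ∀ x : ℕ × ℕ,
  EQ q l k eb (omW q m g t₁ wm (l * k) 3200 Jt) Jt (3200 + T)
      (fun y => (bad p (l * k * (3200 + T)) (Jt - l * k * (3200 + T)) y : ℝ)) x ≤
    3200 * tm p (l * k) + T * (hm + tm p (l * u₁) + tm p (l * k) *
      ((Mj 0).re * (1 + del) + 3 * d' * ∑ κ ∈ bx0 K₀, ‖Mj κ‖ + 2 * del +
        er q m t₁ l k T (rhoL q t₁ l del + (2 * K₀) ^ 2 * rhoG q l d d')))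

/-! ## Choice of parameters -/

noncomputable def t1 (θ : ℝ) (l : ℕ) : ℕ := ⌈θ * l ^ 2⌉₊
noncomputable def u1 (θ : ℝ) (l : ℕ) : ℕ := ⌈θ * l⌉₊

/-- carry density of the kernels -/
noncomputable def xx (q : ℕ) : ℝ := if q = 3 then 33 / 38 else 86 / 95

/-- row PRM: the hypotheses on the parameters hold for large `l` -/
def PRMStmt : Prop := MARGStmt → ∀ q : ℕ, (q = 3 ∨ q = 5) → ∀ m g : ℕ, 1 ≤ m → 1 ≤ g →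
  ∀ θ : ℝ, 0 < θ → θ ≤ 1 / 10 → ∃ l₀ : ℕ, ∀ l ≥ l₀, 200 ≤ l ∧ u1 θ l ≤ l ∧
    ∀ wm : ℕ → ℕ → ℝ, MK q m kk wm → Par q m g (t1 θ l) l l wm

/-- row LIM: small quantities -/
def LIMStmt : Prop := ATYStmt → ∀ q : ℕ, (q = 3 ∨ q = 5) → ∀ (m T : ℕ) (θ del d' η : ℝ), 0 < θ →
  0 < del → 0 < d' → 0 < η → ∃ l₀ : ℕ, ∀ l ≥ l₀,
    (2 * NI l l 1100) ^ (3200 + T + 1) * s0 q m (t1 θ l) l 1100 ≤ η ∧
    0 ≤ rhoL q (t1 θ l) l del ∧ rhoL q (t1 θ l) l del ≤ η ∧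
    0 ≤ atyp eb l ∧ (3200 + T + 1) * (l * atyp eb l) ≤ η ∧
    ∀ d : ℝ, 0 ≤ d → 0 ≤ rhoG q l d d' ∧ rhoG q l d d' ≤ d / d' ^ 2 + η

/-- row LQQ: numerics for base `q` -/
def LQQStmt : Prop := LIMStmt → ATYStmt → ∀ q : ℕ, (q = 3 ∨ q = 5) → ∀ (m g T : ℕ) (e θ εk : ℝ),
  0 < e → e ≤ 1 → 3200 / (3200 + (T : ℝ)) ≤ e / 16 → 0 < θ → θ ≤ e / 32 → 0 ≤ εk → εk ≤ e / 816 →
  2 * (q : ℝ) ^ 2 / (q : ℝ) ^ g ≤ e / 16 → ∃ l₀ : ℕ, ∀ l ≥ l₀,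
  3200 * tm q (l * l) + T * (t1 θ l + g + 2 * m + 2 + tm q (l * l) *
      ((1 - xx q + εk) + (2 * q ^ 2 * εk + 2 * q ^ 2 / (q : ℝ) ^ g) + e / 16 +
        er q m (t1 θ l) l l T (rhoL q (t1 θ l) l (e / 16)))) ≤
    (dens q q + e / 2) * ((l * l * (3200 + T) : ℕ) : ℝ)

/-- row LQP: numerics for base `p`; `R` = `∑ ‖Mj κ‖` -/
def LQPStmt : Prop := LIMStmt → ATYStmt → ∀ q : ℕ, (q = 3 ∨ q = 5) → ∀ p : ℕ, 3 ≤ p → p ≠ q →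
  ∀ (m T hm K₀ : ℕ) (e θ M₀ R : ℝ),
  0 < e → e ≤ 1 → 3200 / (3200 + (T : ℝ)) ≤ e / 16 → 0 < θ → θ ≤ e / 32 → 0 ≤ M₀ →
  M₀ ≤ 1 / 2 + 4 * (e / 64) + e / 16 → 0 ≤ R → ∃ d d' : ℝ, 0 < d ∧ 0 < d' ∧ ∃ l₀ : ℕ, ∀ l ≥ l₀,
  3200 * tm p (l * l) + T * (hm + tm p (l * u1 θ l) + tm p (l * l) *
      (M₀ * (1 + e / 64) + 3 * d' * R + 2 * (e / 64) +
        er q m (t1 θ l) l l T (rhoL q (t1 θ l) l (e / 64) + (2 * K₀) ^ 2 * rhoG q l d d'))) ≤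
    (dens q p + e / 2) * ((l * l * (3200 + T) : ℕ) : ℝ)

/-- one base of the window theorem -/
def PQ (q p : ℕ) (e : ℝ) (T m g : ℕ) (θ : ℝ) (wm : ℕ → ℕ → ℝ) : Prop :=
  ∃ l₀ : ℕ, ∀ l ≥ l₀, ∀ W : ℕ, W = l * l * (3200 + T) → ∃ β : ℕ → ℝ,
    (∀ (J : ℕ) (x : ℕ × ℕ), EQ q l l eb (omW q m g (t1 θ l) wm (l * l) 3200 (J + W)) (J + W)
      (3200 + T) (fun y => (bad p W J y : ℝ)) x ≤ β J) ∧
    ∃ K₀ : ℕ, ∀ K ≥ K₀, ∀ J : ℕ, ∑ i ∈ range K, β (J + i * W) ≤ (dens q p + e) * (K * W)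

open Classical in
/-- row BET: from good windows to `β` (trivial bound `2 W` on the other windows; from EQB, BCT, TMB) -/
def BETStmt : Prop := ∀ (q p l T W : ℕ) (e : ℝ) (om : ℕ → ℕ → ℕ × ℕ → ℝ) (Gd : ℕ → Prop), 2 ≤ p →
  0 < e → 0 ≤ dens q p → Marg eb l → 0 < l → (∀ Jt J z, 0 ≤ om Jt J z) → W = l * l * (3200 + T) →
  (∀ J, Gd J → ∀ x : ℕ × ℕ, EQ q l l eb (om (J + W)) (J + W) (3200 + T)
    (fun y => (bad p W J y : ℝ)) x ≤ (dens q p + e / 2) * W) →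
  (∃ K₀ : ℕ, ∀ K ≥ K₀, ∀ J : ℕ, (((range K).filter fun i => ¬ Gd (J + i * W)).card : ℝ) ≤ e / 4 * K) →
  ∃ β : ℕ → ℝ,
    (∀ (J : ℕ) (x : ℕ × ℕ), EQ q l l eb (om (J + W)) (J + W)
      (3200 + T) (fun y => (bad p W J y : ℝ)) x ≤ β J) ∧
    ∃ K₀ : ℕ, ∀ K ≥ K₀, ∀ J : ℕ, ∑ i ∈ range K, β (J + i * W) ≤ (dens q p + e) * (K * W)

/-- row PQ2 (from BSW, ATY, PRM, MARG, ONN) -/
def PQ2Stmt : Prop := ∀ q : ℕ, (q = 3 ∨ q = 5) → ∀ (e : ℝ) (T m g : ℕ) (θ : ℝ) (wm : ℕ → ℕ → ℝ),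
  0 < e → 1 ≤ m → 1 ≤ g → 0 < θ → θ ≤ 1 / 10 → MK q m kk wm → PQ q 2 e T m g θ wm

/-- row PQQ (from WNQ, LQQ, PRM, BET, AVF, AVS, ONN) -/
def PQQStmt : Prop := ∀ q : ℕ, (q = 3 ∨ q = 5) → ∀ (e : ℝ) (T m g : ℕ) (θ εk : ℝ) (wm : ℕ → ℕ → ℝ),
  0 < e → e ≤ 1 → 3200 / (3200 + (T : ℝ)) ≤ e / 16 → 1 ≤ m → 1 ≤ g → 0 < θ → θ ≤ e / 32 →
  0 ≤ εk → εk ≤ e / 816 → 2 * (q : ℝ) ^ 2 / (q : ℝ) ^ g ≤ e / 16 → MK q m kk wm →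
  ((((range (q ^ m)).filter fun V => ∃ A < q ^ m, wm V A ≠ 0 ∧
      (ncar q m V A : ℝ) < (xx q - εk) * m).card : ℝ) ≤ εk * (q : ℝ) ^ m) →
  PQ q q e T m g θ wm

/-- row PQP (from WNP, LQP, TMJ, PRM, BET, AVF, AVS, AVG, ONN) -/
def PQPStmt : Prop := ∀ q : ℕ, (q = 3 ∨ q = 5) → ∀ p : ℕ, p.Prime → p ≠ 2 → p ≠ q →
  ∀ (e : ℝ) (T m g : ℕ) (θ : ℝ) (wm : ℕ → ℕ → ℝ),
  0 < e → e ≤ 1 → 3200 / (3200 + (T : ℝ)) ≤ e / 16 → 1 ≤ m → 1 ≤ g → 0 < θ → θ ≤ e / 32 →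
  MK q m kk wm → PQ q p e T m g θ wm

/-- row WIN: the window theorem -/
def WINRStmt : Prop := LAWStmt → ONNStmt → MARGStmt → PRMStmt → MKX3Stmt → MKX5Stmt → PQ2Stmt →
  PQQStmt → PQPStmt → Win

end Pool.Agent.H24.FD
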