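import Mathlib
import Pool.Agent.H12.FD.VALS
import Pool.Agent.H13.FD.AVG
import Pool.Agent.H13.FD.SFV
import Pool.Agent.H13.FD.WIN
import Pool.Agent.H17.FD.F1T
import Pool.Agent.H18.FDP.TMB
import Pool.Agent.H18.FDP.PRM
import Pool.Agent.H18.FDP.LQ
import Pool.Agent.H2.FD.PQQ
import Pool.Agent.H23.FD.RSF
import Pool.Agent.H23.FD.ZZF
import Pool.Agent.H25.FD.PHI
import Pool.Agent.H31.FD.BCT
import Pool.Agent.H31.FD.BET
import Pool.Agent.H31.FD.KLE
import Pool.Agent.H31.FD.ONL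
import Pool.Agent.H31.FD.CRP
import Pool.Agent.H31.FD.CRX
import Pool.Agent.H31.FD.KEQ
import Pool.Agent.H31.FD.LOR
import Pool.Agent.H31.FD.MKX
import Pool.Agent.H31.FD.UNI
import Pool.Agent.H88.FD.CSP
import Pool.Agent.H88.FD.RSH
import Pool.Agent.H88.FD.BSW
import Pool.Agent.H34.FD.LCE
import Pool.Agent.H34.FD.LIM
import Pool.Agent.H36.FD.CRU
import Pool.Agent.H38.FD.GBD
import Pool.Agent.H42.FD.GCE
import Pool.Agent.H42.FD.KEF
import Pool.Agent.H42.FD.KER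
import Pool.Agent.H42.FD.ONQ
import Pool.Agent.H45.FD.LEVB
import Pool.Agent.H45.FD.ONN
import Pool.Agent.H48.FD.EPA
import Pool.Agent.H48.FD.FLA
import Pool.Agent.H49.FD.PQ2
import Pool.Agent.H50.FD.ATY
import Pool.Agent.H50.FD.PIM
import Pool.Agent.H50.FD.PIN
import Pool.Agent.H51.FD.CEL
import Pool.Agent.H51.FD.COP
import Pool.Agent.H51.FD.DIG
import Pool.Agent.H52.FD.MARG
import Pool.Agent.H54.FD.AVS
import Pool.Agent.H54.FD.COC
import Pool.Agent.H54.FD.PQP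
import Pool.Agent.H54.FD.SUR
import Pool.Agent.H59.FD.CRN
import Pool.Agent.H59.FD.MSS
import Pool.Agent.H63.FD.EQB
import Pool.Agent.H63.FD.F1B
import Pool.Agent.H63.FD.F1D
import Pool.Agent.H63.FD.WNQ
import Pool.Agent.H67.FD.STP
import Pool.Agent.H67.FD.COV
import Pool.Agent.H7.FD.PairU
import Pool.Agent.H71.FD.PFM
import Pool.Agent.H78.FD.ETR
import Pool.Agent.H78.FD.GLZ
import Pool.Agent.H78.FD.IND
import Pool.Agent.H78.FD.ONP
import Pool.Agent.H78.FD.SPL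
import Pool.Agent.H78.FD.WNP
import Pool.Agent.H82.FD.F4S
import Pool.Agent.H82.FD.SPR
import Pool.Agent.H84.FD.TMJ
import Pool.Agent.H84.FD.AVf
import Pool.Agent.H89.FD.MAS
import Pool.Agent.H89.FD.RFR
import Pool.Agent.H89.FD.SHS
import Pool.Agent.H93.FD.CRF
import Pool.Agent.H93.FL.DKM
import Pool.Agent.H93.FL.HPS
import Pool.Agent.H93.FL.Forms
import Pool.Agent.H99.FD.GLP
import Pool.Agent.H99.FD.LAW
import Pool.Agent.H93.AS.Dya
import Pool.Agent.H18.AS.BOT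
import Pool.Agent.H51.AS.TYA
import Pool.Agent.H51.AS.TYB
import Pool.Agent.H54.AS.CAR
import Pool.Agent.H54.AS.NUM

/-!
# MP_1f2761, k = 2: the chain of all rows
-/

set_option autoImplicit false

open Finset Pool.K2 Pool.FD

namespace Pool.Agent.H24.FD.Fin

theorem r_vals : VALSStmt := vals
theorem r_marg : MARGStmt := marg
theorem r_pfm : PFMStmt := pfm
theorem r_pim : PIMStmt := pim r_pfm
theorem r_pin : PINStmt := pin
theorem r_eqb : EQBStmt := eqb r_vals r_pim r_pin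
theorem r_aty : ATYStmt := aty
theorem r_spl : SPLStmt := spl r_vals r_pin r_eqb
theorem r_epa : EPAStmt := epa
theorem r_etr : ETRStmt := etr
theorem r_fla : FLAStmt := fla
theorem r_mkx3 : MKX3Stmt := mkx3
theorem r_mkx5 : MKX5Stmt := mkx5
theorem r_ker : KERStmt := ker
theorem r_kef : KEFStmt := kef
theorem r_crp : CRPStmt := crp r_vals r_epa r_ker r_kef
theorem r_crx : CRXStmt := crx r_epa
theorem r_ind : INDStmt := ind r_eqb r_spl
theorem r_glp : GLPStmt := glp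
theorem r_glz : GLZStmt := glz
theorem r_hps : HPSStmt := Pool.Agent.H93.FL.hps Pool.FD.phi_row r_marg
theorem r_dkm : DKMStmt := Pool.Agent.H93.FL.dkm Pool.FD.din
theorem r_crn : CRNStmt := crn
theorem r_mss : MSSStmt := mss Pool.FD.mas (Pool.FD.rzd Pool.FD.rsf) Pool.FD.van r_kef r_glp r_glz
theorem r_stp : STPStmt := stp r_fla r_glp r_glz r_ker Pool.FD.nls (Pool.FD.rzd Pool.FD.rsf) Pool.FD.van
theorem r_rsh : Pool.FD.RSHStmt := Pool.FD.rsh Pool.FD.csp
theorem r_rce : Pool.FD.RCEStmt := Pool.FD.rce Pool.FD.rsf Pool.FD.csp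
theorem r_cop : COPStmt := cop r_rsh
theorem r_coc : COCStmt := coc r_rsh r_rce
theorem r_crf : CRFStmt := Pool.Agent.H93.FD.crf r_etr r_ker r_crp r_crx r_mss r_crn Pool.FD.cru r_glp r_glz
theorem r_sfv : SFVStmt :=
  sfv r_ind r_spl r_eqb r_etr r_glz r_crf r_stp r_cop r_coc
theorem r_zzf : ZZFStmt := zzf r_vals r_glz
theorem r_lor : LORStmt := lor r_vals r_pfm r_zzf
theorem r_uni : UNIStmt := uni
theorem r_dig : DIGStmt := dig
theorem r_onq : ONQStmt := onq r_vals r_pim r_pin r_lor r_uni r_dig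
theorem r_onp : ONPStmt := onp r_vals r_glz Pool.FD.sur Pool.FD.spr r_zzf r_lor
theorem r_bsw : BSWStmt := H88.bsw r_eqb r_pin
theorem r_levb : LEVBStmt := levb r_vals r_pin r_eqb
theorem r_bct : BCTStmt := bct
theorem r_lce : LCEStmt := lce Pool.FD.f1b Pool.FD.f1d r_ker r_pfm r_vals
theorem r_gce : GCEStmt := gce Pool.FD.gbd r_glp
theorem r_keq : KEQStmt := keq
theorem r_avf : AVFStmt := avf r_hps r_dkm r_glp r_marg
theorem r_avs : AVSStmt := avs Pool.FD.f1t r_ker r_keq (Pool.Agent.H93.FL.kbs r_marg r_pfm r_vals)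
theorem r_avg : AVGStmt := avg (Pool.FD.f4s Pool.FD.rfr Pool.FD.shs) Pool.Agent.H7.FD.prh
  (Pool.Agent.H93.FL.h1s r_marg) (Pool.Agent.H93.FL.h2s r_marg) r_glp r_marg r_ker r_glz
theorem r_law : LAWStmt := law r_vals r_eqb
theorem r_onn : ONNStmt := onn
theorem r_lim : LIMStmt := lim
theorem r_pq2 : PQ2Stmt := pq2 r_bsw r_aty r_marg r_onn
theorem r_cel : CELStmt := Pool.Agent.H51.FD.cel r_sfv r_spl r_eqb r_onn
theorem r_tmb : TMBStmt := tmb
theorem r_kle : KLEStmt := kle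
theorem r_cov : COVStmt := cov
theorem r_prm : PRMStmt := prm
theorem r_lqq : LQQStmt := lqq
theorem r_lqp : LQPStmt := lqp
theorem r_bet : BETStmt := bet r_eqb
theorem r_onl : ONLStmt := onl r_onp r_lce r_gce r_spl r_eqb r_onn
theorem r_wnq : WNQStmt :=
  wnq r_levb r_bct r_tmb r_onq r_lce r_kle r_cel r_eqb r_onn
theorem r_wnp : WNPStmt :=
  wnp r_eqb r_onn r_levb r_bct r_tmb r_cov r_onl r_kle r_cel
theorem r_pqq : PQQStmt :=
  pqq r_wnq r_lqq r_prm r_bet r_avf r_avs r_onn r_lim r_aty r_marg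
theorem r_pqp : PQPStmt :=
  pqp r_wnp r_lqp r_lim r_aty r_marg Pool.FD.tmj r_prm r_bet r_avf r_avs r_avg r_onn
theorem r_win : Win :=
  winr r_law r_onn r_marg r_prm r_mkx3 r_mkx5 r_pq2 r_pqq r_pqp
theorem r_dya : Pool.Agent.H93.AS.DYAStmt :=
  Pool.Agent.H93.AS.comb r_win Pool.Agent.H93.AS.car Pool.Agent.H93.AS.val
    Pool.Agent.H93.AS.lar Pool.Agent.H93.AS.tya Pool.Agent.H93.AS.tyb Pool.Agent.H93.AS.bot
    Pool.Agent.H93.AS.num

end Pool.Agent.H24.FD.Fin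

namespace Pool.Agent.H24.FD

/-- the window theorem -/
theorem win_final : Win := Fin.r_win

/-- almost all `M < 2^L` are of the form `n + g` with `g_2(n)` at least `g = (1 - ε) L` -/
theorem dya_final : Pool.Agent.H93.AS.DYAStmt := Fin.r_dya

end Pool.Agent.H24.FD
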